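import Mathlib
import Pool.Agent.H.MP_462fed_al.Main

namespace Pool.Agent.Results.MP_462fed_al.Q1

/-- some m conjugates of x, by elements of the group generated by the inner automorphisms and x,
generate a subgroup of order divisible by r -/
def Gen (S : Type) [Group S] (r : ℕ) (x : MulAut S) (m : ℕ) : Prop :=
  ∃ c : Fin m → MulAut S,
    (∀ i, c i ∈ (MulAut.conj : S →* MulAut S).range ⊔ Subgroup.zpowers x) ∧
    r ∣ Nat.card (Subgroup.closure (Set.range fun i => c i * x * (c i)⁻¹))

theorem result : ∃ (S : Type) (_ : Group S) (_ : Finite S) (_ : IsSimpleGroup S),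
    (∃ a b : S, a * b ≠ b * a) ∧ 5 ∣ Nat.card S ∧
    ∃ x : MulAut S, orderOf x = 3 ∧ IsLeast {m : ℕ | 1 ≤ m ∧ Gen S 5 x m} 4 :=
  Pool.Agent.H.MP_462fed_al.main

end Pool.Agent.Results.MP_462fed_al.Q1
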